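import Pool.Agent.P.MP_a0085b_an.Core

set_option autoImplicit false

namespace Pool.Agent.Results.MP_a0085b_an.Q2

open MeasureTheory Filter Finset RealInnerProductSpace Pool.Agent.P.MP_a0085b_an

theorem result {X : Type*} [MeasurableSpace X] (μ : Measure X) [IsProbabilityMeasure μ]
    (T : ℕ → X → X) (hT : ∀ n, 0 < n → MeasurePreserving (T n) μ μ) (_hone : T 1 = id)
    (hmul : ∀ n m, 0 < n → 0 < m → T (n * m) = T n ∘ T m)
    (A : Set X) (hA : MeasurableSet A) (hpos : 0 < μ A) :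
    0 < liminf (fun N : ℕ => 1 / (N : ℝ) ^ 2 * ∑ n ∈ Icc 1 N, ∑ m ∈ Icc 1 N,
      μ.real (T (n ^ 2 + n) ⁻¹' A ∩ T (m ^ 2) ⁻¹' A)) atTop := by
  classical
  have hm : ∀ a, 0 < a → MeasurableSet (T a ⁻¹' A) := fun a ha => (hT a ha).measurable hA
  let v : ℕ → Lp ℝ 2 μ := fun a =>
    if h : 0 < a then indicatorConstLp 2 (hm a h) (measure_ne_top _ _) (1 : ℝ) else 0
  let e : Lp ℝ 2 μ := indicatorConstLp 2 MeasurableSet.univ (measure_ne_top _ _) (1 : ℝ)
  have hvv : ∀ a b, 0 < a → 0 < b → ⟪v a, v b⟫ = μ.real (T a ⁻¹' A ∩ T b ⁻¹' A) := by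
    intro a b ha hb
    simp only [v, dif_pos ha, dif_pos hb]
    exact L2.real_inner_indicatorConstLp_one_indicatorConstLp_one _ _
  have hve : ∀ a, 0 < a → ⟪v a, e⟫ = μ.real A := by
    intro a ha
    simp only [v, e, dif_pos ha]
    rw [L2.real_inner_indicatorConstLp_one_indicatorConstLp_one, Set.inter_univ]
    exact (hT a ha).measureReal_preimage hA.nullMeasurableSet
  have hn : ∀ a, 0 < a → ‖v a‖ ≤ 1 := by
    intro a ha
    refine le_of_sq_le_sq ?_ zero_le_one
    rw [← real_inner_self_eq_norm_sq, hvv a a ha ha, one_pow]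
    exact measureReal_le_one
  have he : ‖e‖ ≤ 1 := by
    refine le_of_sq_le_sq ?_ zero_le_one
    rw [← real_inner_self_eq_norm_sq, L2.real_inner_indicatorConstLp_one_indicatorConstLp_one,
      one_pow]
    exact measureReal_le_one
  have hv : ∀ c a b, 0 < c → 0 < a → 0 < b → ⟪v (c * a), v (c * b)⟫ = ⟪v a, v b⟫ := by
    intro c a b hc ha hb
    rw [hvv _ _ (by positivity) (by positivity), hvv a b ha hb, mul_comm c a, mul_comm c b,
      hmul a c ha hc, hmul b c hb hc, Set.preimage_comp, Set.preimage_comp, ← Set.preimage_inter]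
    exact (hT c hc).measureReal_preimage ((hm a ha).inter (hm b hb)).nullMeasurableSet
  have hα : 0 < μ.real A := ENNReal.toReal_pos hpos.ne' (measure_ne_top _ _)
  obtain ⟨D, W, hD, hW, h⟩ := key v hv hn e he _ hα hve
  obtain ⟨κ, hκ, hev⟩ := count (fun n m => μ.real (T (n ^ 2 + n) ⁻¹' A ∩ T (m ^ 2) ⁻¹' A))
    (fun _ _ => measureReal_nonneg) (μ.real A ^ 2 / 4) (by positivity) D W hD hW (by
      intro t u hu
      obtain ⟨a, d, q, n, h1, h2, h3, h4, h5, h6, h7, h8⟩ := h t u hu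
      rw [hvv _ _ (by positivity) (by positivity)] at h8
      exact ⟨a, d, q, n, h1, h2, h3, h4, h5, h6, h7, h8⟩)
  refine lt_of_lt_of_le hκ (le_liminf_of_le ?_ hev)
  refine isCoboundedUnder_ge_of_le atTop (x := 1) fun N => ?_
  rcases Nat.eq_zero_or_pos N with rfl | hN
  · simp
  · have hN0 : (0 : ℝ) < N := by exact_mod_cast hN
    rw [one_div, inv_mul_le_iff₀ (by positivity)]
    calc _ ≤ ∑ _n ∈ Icc 1 N, ∑ _m ∈ Icc 1 N, (1 : ℝ) :=
          Finset.sum_le_sum fun _ _ => Finset.sum_le_sum fun _ _ => measureReal_le_one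
      _ = _ := by simp [pow_two]

end Pool.Agent.Results.MP_a0085b_an.Q2
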